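import Mathlib

namespace Pool.Agent.W117.Mob

open Set unitInterval
open scoped Classical in

/-- The geometric realisation of the neighbourhood complex: probability vectors on `V`
whose support has a common neighbour. -/
def nbhd {V : Type} [Fintype V] (H : SimpleGraph V) : Set (V → ℝ) :=
  {x | (∀ v, 0 ≤ x v) ∧ ∑ v, x v = 1 ∧ ∃ u, ∀ v, x v ≠ 0 → H.Adj u v}

section
variable {V : Type} [Fintype V] {H : SimpleGraph V}

def cell (H : SimpleGraph V) (u : V) : Set (V → ℝ) :=
  {x | (∀ v, 0 ≤ x v) ∧ ∑ v, x v = 1 ∧ ∀ v, x v ≠ 0 → H.Adj u v}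

lemma cell_sub (u : V) : cell H u ⊆ nbhd H := fun _ h => ⟨h.1, h.2.1, u, h.2.2⟩

lemma cell_convex (u : V) : Convex ℝ (cell H u) := by
  intro x hx y hy a b ha hb hab
  refine ⟨fun v => ?_, ?_, fun v hv => ?_⟩
  · simp only [Pi.add_apply, Pi.smul_apply, smul_eq_mul]
    have := hx.1 v; have := hy.1 v; positivity
  · simp only [Pi.add_apply, Pi.smul_apply, smul_eq_mul, Finset.sum_add_distrib,
      ← Finset.mul_sum, hx.2.1, hy.2.1]; linarith
  · by_contra hc
    apply hv
    have h1 : x v = 0 := by by_contra h; exact hc (hx.2.2 v h)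
    have h2 : y v = 0 := by by_contra h; exact hc (hy.2.2 v h)
    simp [h1, h2]

open scoped Classical in
noncomputable def pv (v : V) : V → ℝ := Pi.single v 1

lemma pv_self (v : V) : pv v v = 1 := by simp [pv]

lemma pv_ne {v w : V} (h : w ≠ v) : pv v w = 0 := by simp [pv, h]

lemma pv_cell {u v : V} (h : H.Adj u v) : pv v ∈ cell H u := by
  classical
  refine ⟨fun w => ?_, ?_, fun w hw => ?_⟩
  · by_cases hw : w = v
    · subst hw; simp [pv_self]
    · simp [pv_ne hw]
  · simp [pv]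
  · by_cases hw' : w = v
    · subst hw'; exact h
    · exact absurd (pv_ne hw') hw

def star (H : SimpleGraph V) (v : V) : Set (V → ℝ) := {x | x ∈ nbhd H ∧ 0 < x v}

lemma star_sub (v : V) : star H v ⊆ nbhd H := fun _ h => h.1

lemma star_convex (v : V) : StarConvex ℝ (pv v) (star H v) := by
  intro x hx a b ha hb hab
  obtain ⟨⟨h0, h1, u, hu⟩, hv⟩ := hx
  have huv : H.Adj u v := hu v hv.ne'
  have hc : x ∈ cell H u := ⟨h0, h1, hu⟩
  have hm := cell_convex u (pv_cell huv) hc ha hb hab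
  refine ⟨cell_sub u hm, ?_⟩
  simp only [Pi.add_apply, Pi.smul_apply, smul_eq_mul, pv_self]
  rcases eq_or_lt_of_le ha with h | h
  · subst h; have : b = 1 := by linarith
    subst this; simpa using hv
  · have := mul_nonneg hb hv.le; linarith

lemma homotopic_of_contractible {C : Set (V → ℝ)} (hC : C ⊆ nbhd H) [ContractibleSpace C]
    {x y : nbhd H} (p q : Path x y) (hp : ∀ t, (p t : V → ℝ) ∈ C)
    (hq : ∀ t, (q t : V → ℝ) ∈ C) : p.Homotopic q := by
  have hx : (x : V → ℝ) ∈ C := by simpa using hp 0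
  have hy : (y : V → ℝ) ∈ C := by simpa using hp 1
  let p' : Path (⟨x, hx⟩ : C) ⟨y, hy⟩ :=
    { toFun := fun t => ⟨p t, hp t⟩
      continuous_toFun := by
        exact Continuous.subtype_mk (continuous_subtype_val.comp p.continuous) _
      source' := by simp
      target' := by simp }
  let q' : Path (⟨x, hx⟩ : C) ⟨y, hy⟩ :=
    { toFun := fun t => ⟨q t, hq t⟩
      continuous_toFun := by
        exact Continuous.subtype_mk (continuous_subtype_val.comp q.continuous) _
      source' := by simp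
      target' := by simp }
  let ι : C(C, nbhd H) := ⟨fun z => ⟨z.1, hC z.2⟩,
    Continuous.subtype_mk continuous_subtype_val _⟩
  have h : p'.Homotopic q' := SimplyConnectedSpace.paths_homotopic p' q'
  exact h.map ι

/-- straight segment inside a cell -/
noncomputable def seg (u : V) (x y : nbhd H) (hx : (x : V → ℝ) ∈ cell H u)
    (hy : (y : V → ℝ) ∈ cell H u) : Path x y where
  toFun t := ⟨(1 - (t : ℝ)) • (x : V → ℝ) + (t : ℝ) • (y : V → ℝ),
    cell_sub u (cell_convex u hx hy (by have := t.2.2; linarith) t.2.1 (by ring))⟩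
  continuous_toFun := by
    apply Continuous.subtype_mk
    fun_prop
  source' := by ext; simp
  target' := by ext; simp

lemma seg_mem (u : V) (x y : nbhd H) (hx : (x : V → ℝ) ∈ cell H u)
    (hy : (y : V → ℝ) ∈ cell H u) (t : I) : ((seg u x y hx hy t : nbhd H) : V → ℝ) ∈ cell H u :=
  cell_convex u hx hy (by have := t.2.2; linarith) t.2.1 (by ring)

lemma seg_mem_star (u : V) (x y : nbhd H) (hx : (x : V → ℝ) ∈ cell H u)
    (hy : (y : V → ℝ) ∈ cell H u) (v : V) (hxv : 0 < (x : V → ℝ) v) (hyv : 0 < (y : V → ℝ) v)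
    (t : I) : ((seg u x y hx hy t : nbhd H) : V → ℝ) ∈ star H v := by
  refine ⟨cell_sub u (seg_mem u x y hx hy t), ?_⟩
  change 0 < ((1 - (t : ℝ)) • (x : V → ℝ) + (t : ℝ) • (y : V → ℝ)) v
  simp only [Pi.add_apply, Pi.smul_apply, smul_eq_mul]
  have h1 := t.2.1; have h2 := t.2.2
  rcases eq_or_lt_of_le h1 with h | h
  · rw [← h]; simpa using hxv
  · have := mul_pos h hyv
    have := mul_nonneg (sub_nonneg.2 h2) hxv.le
    linarith

/-- two points have supports in a common neighbourhood -/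
def Sx (x y : nbhd H) : Prop := ∃ u, (x : V → ℝ) ∈ cell H u ∧ (y : V → ℝ) ∈ cell H u

noncomputable def cls (x y : nbhd H) (h : Sx x y) : Path.Homotopic.Quotient x y :=
  Path.Homotopic.Quotient.mk (seg h.choose x y h.choose_spec.1 h.choose_spec.2)

lemma cell_contr {u : V} {x : V → ℝ} (hx : x ∈ cell H u) : ContractibleSpace (cell H u) :=
  (cell_convex u).contractibleSpace ⟨x, hx⟩

/-- the class of any path inside a cell -/
lemma mk_eq_of_cell {u : V} {x y : nbhd H} (p q : Path x y)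
    (hp : ∀ t, (p t : V → ℝ) ∈ cell H u) (hq : ∀ t, (q t : V → ℝ) ∈ cell H u) :
    Path.Homotopic.Quotient.mk p = Path.Homotopic.Quotient.mk q := by
  haveI := cell_contr (hp 0)
  exact Path.Homotopic.Quotient.eq.2 (homotopic_of_contractible (cell_sub u) p q hp hq)

/-- a point with all mass conditions: coordinates where `x` positive -/
lemma exists_pos (x : nbhd H) : ∃ v, 0 < (x : V → ℝ) v := by
  by_contra hc
  push_neg at hc
  have : ∑ v, (x : V → ℝ) v ≤ 0 := Finset.sum_nonpos (fun v _ => hc v)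
  have h1 := x.2.2.1
  linarith

/-- if `u'` cell contains both and so does `u`: the segment is the same path -/
lemma cls_eq {u : V} {x y : nbhd H} (h : Sx x y) (hx : (x : V → ℝ) ∈ cell H u)
    (hy : (y : V → ℝ) ∈ cell H u) :
    cls x y h = Path.Homotopic.Quotient.mk (seg u x y hx hy) := rfl

lemma mk_trans_eq {u : V} {x y z : nbhd H} (p : Path x y) (q : Path y z) (r : Path x z)
    (hp : ∀ t, (p t : V → ℝ) ∈ cell H u) (hq : ∀ t, (q t : V → ℝ) ∈ cell H u)
    (hr : ∀ t, (r t : V → ℝ) ∈ cell H u) :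
    (Path.Homotopic.Quotient.mk p).trans (Path.Homotopic.Quotient.mk q) =
      Path.Homotopic.Quotient.mk r := by
  rw [← Path.Homotopic.Quotient.mk_trans]
  apply mk_eq_of_cell (u := u) _ _ _ hr
  intro t
  have ht : (p.trans q) t ∈ Set.range (p.trans q) := Set.mem_range_self t
  rw [Path.trans_range] at ht
  rcases ht with ⟨s, hs⟩ | ⟨s, hs⟩
  · rw [← hs]; exact hp s
  · rw [← hs]; exact hq s

lemma cls_trans {u : V} {x y z : nbhd H} (hx : (x : V → ℝ) ∈ cell H u)
    (hy : (y : V → ℝ) ∈ cell H u) (hz : (z : V → ℝ) ∈ cell H u)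
    (h1 : Sx x y) (h2 : Sx y z) (h3 : Sx x z) :
    (cls x y h1).trans (cls y z h2) = cls x z h3 := by
  rw [cls_eq h1 hx hy, cls_eq h2 hy hz, cls_eq h3 hx hz]
  exact mk_trans_eq (u := u) _ _ _ (seg_mem u _ _ hx hy) (seg_mem u _ _ hy hz)
    (seg_mem u _ _ hx hz)

lemma cls_self {u : V} {x : nbhd H} (hx : (x : V → ℝ) ∈ cell H u) (h : Sx x x) :
    cls x x h = Path.Homotopic.Quotient.refl x := by
  rw [cls_eq h hx hx, ← Path.Homotopic.Quotient.mk_refl]
  apply mk_eq_of_cell (u := u) _ _ (seg_mem u _ _ hx hx)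
  intro t; simpa using hx

lemma exists_cell (x : nbhd H) : ∃ u, (x : V → ℝ) ∈ cell H u := by
  obtain ⟨h0, h1, u, hu⟩ := x.2
  exact ⟨u, h0, h1, hu⟩

/-- a path inside a star -/
lemma mk_star {v u1 u2 : V} {x y : nbhd H} (p : Path x y) (e : nbhd H)
    (he : (e : V → ℝ) = pv v) (hp : ∀ t, 0 < (p t : V → ℝ) v)
    (hx : (x : V → ℝ) ∈ cell H u1) (he1 : (e : V → ℝ) ∈ cell H u1)
    (hy : (y : V → ℝ) ∈ cell H u2) (he2 : (e : V → ℝ) ∈ cell H u2)
    (h1 : Sx x e) (h2 : Sx e y) :
    Path.Homotopic.Quotient.mk p = (cls x e h1).trans (cls e y h2) := by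
  rw [cls_eq h1 hx he1, cls_eq h2 he2 hy, ← Path.Homotopic.Quotient.mk_trans]
  have hev : 0 < (e : V → ℝ) v := by rw [he, pv_self]; exact one_pos
  have hxv : 0 < (x : V → ℝ) v := by simpa using hp 0
  have hyv : 0 < (y : V → ℝ) v := by simpa using hp 1
  haveI : ContractibleSpace (star H v) :=
    (star_convex v).contractibleSpace ⟨(x : V → ℝ), x.2, hxv⟩
  refine Path.Homotopic.Quotient.eq.2
    (homotopic_of_contractible (C := star H v) (star_sub v) p _ (fun t => ⟨(p t).2, hp t⟩) ?_)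
  intro t
  have ht : ((seg u1 x e hx he1).trans (seg u2 e y he2 hy)) t ∈
      Set.range ((seg u1 x e hx he1).trans (seg u2 e y he2 hy)) := Set.mem_range_self t
  rw [Path.trans_range] at ht
  rcases ht with ⟨s, hs⟩ | ⟨s, hs⟩
  · rw [← hs]; exact seg_mem_star u1 _ _ hx he1 v hxv hev s
  · rw [← hs]; exact seg_mem_star u2 _ _ he2 hy v hev hyv s

end

end Pool.Agent.W117.Mob
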