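import Pool.Agent.W117.Mob.A

namespace Pool.Agent.W117.Mob

open Set unitInterval

variable {V : Type} [Fintype V] {H : SimpleGraph V}

/-- infinite walks in `H` -/
structure IWalk (H : SimpleGraph V) where
  w : ℕ → V
  adj : ∀ i, H.Adj (w i) (w (i + 1))

namespace IWalk

noncomputable def pt (W : IWalk H) (i : ℕ) : nbhd H :=
  ⟨pv (W.w (2 * i)), cell_sub (W.w (2 * i + 1)) (pv_cell (W.adj (2 * i)).symm)⟩

lemma pt_coe (W : IWalk H) (i : ℕ) : (W.pt i : V → ℝ) = pv (W.w (2 * i)) := rfl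

lemma pt_cell {W : IWalk H} {i : ℕ} {u : V} (h : H.Adj u (W.w (2 * i))) :
    (W.pt i : V → ℝ) ∈ cell H u := pv_cell h

lemma c1 (W : IWalk H) (i : ℕ) : (W.pt i : V → ℝ) ∈ cell H (W.w (2 * i + 1)) :=
  pt_cell (W.adj (2 * i)).symm

lemma c2 (W : IWalk H) (i : ℕ) : (W.pt (i + 1) : V → ℝ) ∈ cell H (W.w (2 * i + 1)) :=
  pt_cell (W.adj (2 * i + 1))

lemma sx (W : IWalk H) (i : ℕ) : Sx (W.pt i) (W.pt (i + 1)) := ⟨_, W.c1 i, W.c2 i⟩

noncomputable def P (W : IWalk H) : (m : ℕ) → Path.Homotopic.Quotient (W.pt 0) (W.pt m)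
  | 0 => Path.Homotopic.Quotient.refl _
  | (m + 1) => (W.P m).trans (cls _ _ (W.sx m))

def Null (W : IWalk H) (m : ℕ) : Prop :=
  ∀ h : Sx (W.pt 0) (W.pt m), W.P m = cls (W.pt 0) (W.pt m) h

lemma null_const (W : IWalk H) (h : ∀ i, H.Adj (W.w 1) (W.w (2 * i))) (m : ℕ) : W.Null m := by
  induction m with
  | zero =>
    intro hs
    rw [P, cls_self (W.pt_cell (i := 0) (h 0))]
  | succ m ih =>
    intro hs
    have h0 : (W.pt 0 : V → ℝ) ∈ cell H (W.w 1) := pt_cell (h 0)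
    have hm : (W.pt m : V → ℝ) ∈ cell H (W.w 1) := pt_cell (h m)
    have hm1 : (W.pt (m + 1) : V → ℝ) ∈ cell H (W.w 1) := pt_cell (h (m + 1))
    have hs' : Sx (W.pt 0) (W.pt m) := ⟨_, h0, hm⟩
    rw [P, ih hs']
    exact cls_trans h0 hm hm1 _ _ _

variable {W W' : IWalk H}

lemma sxc (hc : ∀ i, H.Adj (W.w (2 * i + 1)) (W'.w (2 * i))) (i : ℕ) :
    Sx (W.pt i) (W'.pt i) := ⟨_, W.c1 i, pt_cell (hc i)⟩

lemma P_close (hc : ∀ i, H.Adj (W.w (2 * i + 1)) (W'.w (2 * i)))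
    (hd : ∀ i, H.Adj (W.w (2 * i + 1)) (W'.w (2 * i + 2))) (m : ℕ) :
    (W.P m).trans (cls _ _ (sxc hc m)) = (cls _ _ (sxc hc 0)).trans (W'.P m) := by
  induction m with
  | zero =>
    simp [P]
  | succ m ih =>
    have hu1 := W.c1 m
    have hu2 := W.c2 m
    have hu3 : (W'.pt m : V → ℝ) ∈ cell H (W.w (2 * m + 1)) := pt_cell (hc m)
    have hu4 : (W'.pt (m + 1) : V → ℝ) ∈ cell H (W.w (2 * m + 1)) := pt_cell (hd m)
    have e1 : (cls _ _ (W.sx m)).trans (cls _ _ (sxc hc (m + 1))) =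
        (cls _ _ (sxc hc m)).trans (cls _ _ (W'.sx m)) := by
      have hs : Sx (W.pt m) (W'.pt (m + 1)) := ⟨_, hu1, hu4⟩
      rw [cls_trans hu1 hu2 hu4 _ _ hs, cls_trans hu1 hu3 hu4 _ _ hs]
    rw [P, P, Path.Homotopic.Quotient.trans_assoc, e1, ← Path.Homotopic.Quotient.trans_assoc,
      ih, Path.Homotopic.Quotient.trans_assoc]

lemma null_step (hc : ∀ i, H.Adj (W.w (2 * i + 1)) (W'.w (2 * i)))
    (hd : ∀ i, H.Adj (W.w (2 * i + 1)) (W'.w (2 * i + 2))) (m : ℕ)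
    (h1 : W.w (2 * m) = W.w 0) (h2 : W'.w (2 * m) = W'.w 0) (hn : W'.Null m) : W.Null m := by
  intro hs
  have a0 : (W.pt 0 : V → ℝ) ∈ cell H (W.w 1) := W.c1 0
  have am : (W.pt m : V → ℝ) ∈ cell H (W.w 1) := pt_cell (by rw [h1]; exact (W.adj 0).symm)
  have b0 : (W'.pt 0 : V → ℝ) ∈ cell H (W.w 1) := pt_cell (hc 0)
  have bm : (W'.pt m : V → ℝ) ∈ cell H (W.w 1) := pt_cell (by rw [h2]; exact hc 0)
  have hP := P_close hc hd m
  have hs' : Sx (W'.pt 0) (W'.pt m) := ⟨_, b0, bm⟩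
  have hs2 : Sx (W.pt 0) (W'.pt m) := ⟨_, a0, bm⟩
  rw [hn hs', cls_trans a0 b0 bm _ _ hs2] at hP
  have hx : Sx (W'.pt m) (W.pt m) := ⟨_, bm, am⟩
  have e : ((W.P m).trans (cls _ _ (sxc hc m))).trans (cls _ _ hx) = W.P m := by
    have hs3 : Sx (W.pt m) (W.pt m) := ⟨_, am, am⟩
    rw [Path.Homotopic.Quotient.trans_assoc, cls_trans am bm am _ _ hs3,
      cls_self am]
    simp
  rw [← e, hP, cls_trans a0 bm am _ _ hs]

end IWalk

end Pool.Agent.W117.Mob
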