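import Pool.Agent.W117.Mob.B

namespace Pool.Agent.W117.Mob

open Set unitInterval

/-- two maps differ at exactly one point -/
def DiffOne {W V : Type} (f g : W → V) : Prop := ∃ w, f w ≠ g w ∧ ∀ x, x ≠ w → f x = g x

/-- `Hom(F,H)` is empty or connected under single vertex changes -/
def HomConnected {W V : Type} (F : SimpleGraph W) (H : SimpleGraph V) : Prop :=
  ∀ f g : F →g H, Relation.ReflTransGen (fun a b : F →g H => DiffOne a b) f g

/-- `H` is `d`-mobile (`d ≥ 2`) -/
def Mobile {V : Type} (H : SimpleGraph V) (d : ℕ) : Prop :=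
  ∀ (W : Type) [Finite W] (F : SimpleGraph W),
    (∀ v, (F.neighborSet v).ncard ≤ d - 2) → HomConnected F H

variable {V : Type} [Fintype V] {H : SimpleGraph V}

/-- the cycle graph -/
def cyc (n : ℕ) : SimpleGraph (ZMod n) := SimpleGraph.fromRel (fun a b => b = a + 1)

lemma cyc_adj {n : ℕ} (a b : ZMod n) : (cyc n).Adj a b ↔ a ≠ b ∧ (b = a + 1 ∨ a = b + 1) := by
  simp [cyc, SimpleGraph.fromRel_adj]

lemma cyc_deg (n : ℕ) (v : ZMod n) : ((cyc n).neighborSet v).ncard ≤ 2 := by
  have hsub : (cyc n).neighborSet v ⊆ {v + 1, v - 1} := by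
    intro b hb
    rw [SimpleGraph.mem_neighborSet, cyc_adj] at hb
    rcases hb.2 with h | h
    · left; exact h
    · right; rw [Set.mem_singleton_iff, h]; ring
  exact (Set.ncard_le_ncard hsub (by simp)).trans (Set.ncard_insert_le _ _ |>.trans (by simp))

noncomputable def walkOf {n : ℕ} (hn : 2 ≤ n) (f : cyc n →g H) : IWalk H where
  w i := f (i : ZMod n)
  adj i := by
    haveI : Fact (1 < n) := ⟨hn⟩
    apply f.map_adj
    rw [cyc_adj]
    push_cast
    exact ⟨by simp, Or.inl rfl⟩

lemma hom_close {F : Type} {G : SimpleGraph F} (f g : G →g H) (h : DiffOne f g) {x y : F}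
    (hxy : G.Adj x y) : H.Adj (f x) (g y) := by
  obtain ⟨w, -, hw⟩ := h
  by_cases hx : x = w
  · have hy : y ≠ w := by rintro rfl; exact hxy.ne hx
    rw [← hw y hy]; exact f.map_adj hxy
  · rw [hw x hx]; exact g.map_adj hxy

lemma walkOf_null_step {m : ℕ} (hm : 2 ≤ 2 * m) (f g : cyc (2 * m) →g H) (h : DiffOne f g)
    (hg : (walkOf hm g).Null m) : (walkOf hm f).Null m := by
  haveI : Fact (1 < 2 * m) := ⟨hm⟩
  refine IWalk.null_step (W := walkOf hm f) (W' := walkOf hm g) ?_ ?_ m ?_ ?_ hg
  · intro i
    apply hom_close f g h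
    rw [cyc_adj]; push_cast
    exact ⟨by simp, Or.inr rfl⟩
  · intro i
    apply hom_close f g h
    rw [cyc_adj]; push_cast
    refine ⟨?_, Or.inl (by ring)⟩
    intro he
    have : (1 : ZMod (2 * m)) = 0 := by linear_combination -he
    exact one_ne_zero this
  · change f _ = f _
    congr 1
    have := ZMod.natCast_self (2 * m)
    simpa using this
  · change g _ = g _
    congr 1
    have := ZMod.natCast_self (2 * m)
    simpa using this

noncomputable def homOf {n : ℕ} (hn : 2 ≤ n) (W : IWalk H) (hp : ∀ i, W.w (i + n) = W.w i) :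
    cyc n →g H where
  toFun a := W.w a.val
  map_rel' := by
    haveI : NeZero n := ⟨by omega⟩
    have hmod : ∀ i, W.w (i % n) = W.w i := fun i =>
      Function.Periodic.map_mod_nat (f := W.w) hp i
    have key : ∀ a : ZMod n, W.w (a + 1).val = W.w (a.val + 1) := by
      intro a
      rw [ZMod.val_add, ZMod.val_one_eq_one_mod, Nat.mod_eq_of_lt (show 1 < n by omega), hmod]
    intro a b hab
    rw [cyc_adj] at hab
    rcases hab.2 with h | h
    · rw [h, key]; exact W.adj _
    · rw [h, key]; exact (W.adj _).symm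

lemma walkOf_homOf {n : ℕ} (hn : 2 ≤ n) (W : IWalk H) (hp : ∀ i, W.w (i + n) = W.w i) :
    walkOf hn (homOf hn W hp) = W := by
  have : (walkOf hn (homOf hn W hp)).w = W.w := by
    funext i
    change W.w ((i : ZMod n).val) = W.w i
    rw [ZMod.val_natCast]
    exact Function.Periodic.map_mod_nat (f := W.w) hp i
  cases W
  simp only [walkOf] at this ⊢
  congr

/-- every closed walk is null if the homomorphism graph of the cycle is connected -/
lemma null_of_conn {m : ℕ} (hm : 1 ≤ m) (hconn : HomConnected (cyc (2 * m)) H) (W : IWalk H)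
    (hp : ∀ i, W.w (i + 2 * m) = W.w i) : W.Null m := by
  have h2 : 2 ≤ 2 * m := by omega
  let W0 : IWalk H :=
    { w := fun i => if i % 2 = 0 then W.w 0 else W.w 1
      adj := by
        intro i
        rcases Nat.mod_two_eq_zero_or_one i with h | h
        · have h' : (i + 1) % 2 = 1 := by omega
          simp only [h, h']; simpa using W.adj 0
        · have h' : (i + 1) % 2 = 0 := by omega
          simp only [h, h']; simpa using (W.adj 0).symm }
  have hp0 : ∀ i, W0.w (i + 2 * m) = W0.w i := by
    intro i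
    change (if (i + 2 * m) % 2 = 0 then _ else _) = (if i % 2 = 0 then _ else _)
    have : (i + 2 * m) % 2 = i % 2 := by omega
    rw [this]
  have n0 : (walkOf h2 (homOf h2 W0 hp0)).Null m := by
    rw [walkOf_homOf]
    apply IWalk.null_const
    intro i
    have : (2 * i) % 2 = 0 := by omega
    have h1 : W0.w 1 = W.w 1 := by simp [W0]
    have h2 : W0.w (2 * i) = W.w 0 := by simp [W0]
    rw [h1, h2]; exact (W.adj 0).symm
  have hr := hconn (homOf h2 W hp) (homOf h2 W0 hp0)
  have key : ∀ f g : cyc (2 * m) →g H,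
      Relation.ReflTransGen (fun a b : cyc (2 * m) →g H => DiffOne a b) f g →
      (walkOf h2 g).Null m → (walkOf h2 f).Null m := by
    intro f g hfg hg
    induction hfg using Relation.ReflTransGen.head_induction_on with
    | refl => exact hg
    | head hab _ ih => exact walkOf_null_step h2 _ _ hab ih
  have := key _ _ hr n0
  rwa [walkOf_homOf] at this

end Pool.Agent.W117.Mob
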