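import Pool.Agent.W117.Mob.C

namespace Pool.Agent.W117.Mob

open Set unitInterval

variable {V : Type} [Fintype V] {H : SimpleGraph V}

/-- the class of a partial path along the pieces -/
lemma class_partial {x : nbhd H} (γ : Path x x) (t : ℕ → I) (ht : Monotone t) (W : IWalk H)
    (m : ℕ) (hpos : ∀ n, n < m → ∀ s ∈ Icc (t n) (t (n + 1)), 0 < (γ s : V → ℝ) (W.w (2 * n)))
    (u0 : V) (hu0 : (γ (t 0) : V → ℝ) ∈ cell H u0)
    (hcell : ∀ n, n < m → (γ (t (n + 1)) : V → ℝ) ∈ cell H (W.w (2 * n + 1)))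
    (n : ℕ) (hn : n < m) (hA : Sx (γ (t 0)) (W.pt 0)) (hB : Sx (W.pt n) (γ (t (n + 1)))) :
    Path.Homotopic.Quotient.mk (γ.subpath (t 0) (t (n + 1))) =
      (cls _ _ hA).trans ((W.P n).trans (cls _ _ hB)) := by
  have hrange : ∀ k, ∀ s, ∃ r ∈ Icc (t k) (t (k + 1)),
      (γ.subpath (t k) (t (k + 1))) s = γ r := by
    intro k s
    have h1 : (γ.subpath (t k) (t (k + 1))) s ∈ Set.range (γ.subpath (t k) (t (k + 1))) :=
      Set.mem_range_self s
    rw [Path.range_subpath_of_le γ _ _ (ht (Nat.le_succ k))] at h1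
    obtain ⟨r, hr, hr'⟩ := h1
    exact ⟨r, hr, hr'.symm⟩
  have hpiece : ∀ k, k < m → ∀ (u1 : V) (hu1 : (γ (t k) : V → ℝ) ∈ cell H u1)
      (h1 : Sx (γ (t k)) (W.pt k)) (h2 : Sx (W.pt k) (γ (t (k + 1)))),
      Path.Homotopic.Quotient.mk (γ.subpath (t k) (t (k + 1))) =
        (cls _ _ h1).trans (cls _ _ h2) := by
    intro k hk u1 hu1 h1 h2
    have hp : ∀ s, 0 < ((γ.subpath (t k) (t (k + 1))) s : V → ℝ) (W.w (2 * k)) := by
      intro s
      obtain ⟨r, hr, hr'⟩ := hrange k s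
      rw [hr']; exact hpos k hk r hr
    have hv : 0 < (γ (t k) : V → ℝ) (W.w (2 * k)) :=
      hpos k hk _ ⟨le_refl _, ht (Nat.le_succ k)⟩
    have hadj : H.Adj u1 (W.w (2 * k)) := hu1.2.2 _ hv.ne'
    exact mk_star (v := W.w (2 * k)) _ (W.pt k) (W.pt_coe k) hp hu1 (IWalk.pt_cell hadj)
      (hcell k hk) (W.c1 k) h1 h2
  induction n with
  | zero =>
    rw [hpiece 0 hn u0 hu0 hA hB, IWalk.P]
    simp
  | succ n ih =>
    have hn' : n < m := by omega
    have hy : (γ (t (n + 1)) : V → ℝ) ∈ cell H (W.w (2 * n + 1)) := hcell n hn'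
    have hB' : Sx (W.pt n) (γ (t (n + 1))) := ⟨_, W.c1 n, hy⟩
    have hC : Sx (γ (t (n + 1))) (W.pt (n + 1)) := ⟨_, hy, W.c2 n⟩
    have e1 : Path.Homotopic.Quotient.mk (γ.subpath (t 0) (t (n + 1 + 1))) =
        (Path.Homotopic.Quotient.mk (γ.subpath (t 0) (t (n + 1)))).trans
          (Path.Homotopic.Quotient.mk (γ.subpath (t (n + 1)) (t (n + 1 + 1)))) := by
      rw [← Path.Homotopic.Quotient.mk_trans]
      exact (Path.Homotopic.Quotient.eq.2
        ⟨Path.Homotopy.subpathTransSubpath γ (t 0) (t (n + 1)) (t (n + 1 + 1))⟩).symm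
    rw [e1, ih hn' hB', hpiece (n + 1) hn _ hy hC hB, IWalk.P]
    have e2 : (cls _ _ hB').trans (cls _ _ hC) = cls _ _ (W.sx n) :=
      cls_trans (W.c1 n) hy (W.c2 n) _ _ _
    rw [← e2]
    simp only [Path.Homotopic.Quotient.trans_assoc]

lemma loop_null_aux {x : nbhd H} (γ : Path x x) (s0 s1 : I) (h0 : s0 = 0) (h1 : s1 = 1)
    (hS : Sx (γ s0) (γ s1))
    (h : Path.Homotopic.Quotient.mk (γ.subpath s0 s1) = cls _ _ hS) :
    Path.Homotopic γ (Path.refl x) := by
  subst h0; subst h1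
  have h' := Path.Homotopic.Quotient.exact h
  rw [Path.subpath_zero_one] at h'
  have h2 := h'.pathCast γ.source.symm γ.target.symm
  have e1 : (γ.cast γ.source γ.target).cast γ.source.symm γ.target.symm = γ := by
    ext t; rfl
  rw [e1] at h2
  convert h2 using 1
  ext t v
  simp only [seg, Path.cast_coe, Path.refl_apply]
  change (x : V → ℝ) v = ((1 - (t : ℝ)) • ((γ 0 : nbhd H) : V → ℝ) +
    (t : ℝ) • ((γ 1 : nbhd H) : V → ℝ)) v
  simp only [Path.source, Path.target, Pi.add_apply, Pi.smul_apply, smul_eq_mul]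
  ring

lemma loop_null (hconn : ∀ N, ∃ m, N ≤ m ∧ HomConnected (cyc (2 * m)) H) {x : nbhd H}
    (γ : Path x x) : Path.Homotopic γ (Path.refl x) := by
  obtain ⟨t, ht0, htm, ⟨N, hN⟩, hcov⟩ :=
    exists_monotone_Icc_subset_open_cover_unitInterval
      (c := fun v : V => {s : I | 0 < (γ s : V → ℝ) v})
      (fun v => by
        have hc : Continuous fun s : I => (γ s : V → ℝ) v :=
          (continuous_apply v).comp (continuous_subtype_val.comp γ.continuous)
        exact isOpen_lt continuous_const hc)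
      (fun s _ => by
        obtain ⟨v, hv⟩ := exists_pos (γ s)
        exact Set.mem_iUnion.2 ⟨v, hv⟩)
  choose v hv using hcov
  choose u hu using fun n => exists_cell (γ (t n))
  obtain ⟨m', hm', hconn'⟩ := hconn (max N 2)
  obtain ⟨k, hk⟩ : ∃ k, m' = k + 1 := ⟨m' - 1, by omega⟩
  subst hk
  set m := k + 1 with hm
  have hm2 : 2 ≤ m := le_trans (le_max_right _ _) hm'
  have htm1 : t m = 1 := hN m (le_trans (le_max_left _ _) hm')
  have hpos : ∀ n, ∀ s ∈ Icc (t n) (t (n + 1)), 0 < (γ s : V → ℝ) (v n) :=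
    fun n s hs => hv n hs
  have hvl : ∀ n, 0 < (γ (t n) : V → ℝ) (v n) :=
    fun n => hpos n _ ⟨le_refl _, htm (Nat.le_succ n)⟩
  have hvr : ∀ n, 0 < (γ (t (n + 1)) : V → ℝ) (v n) :=
    fun n => hpos n _ ⟨htm (Nat.le_succ n), le_refl _⟩
  have hend : (γ (t m) : nbhd H) = γ (t 0) := by rw [htm1, ht0]; simp
  -- adjacency facts
  have ad1 : ∀ n, H.Adj (v n) (u (n + 1)) := fun n => ((hu (n + 1)).2.2 _ (hvr n).ne').symm
  have ad2 : ∀ n, H.Adj (u (n + 1)) (v (n + 1)) := fun n => (hu (n + 1)).2.2 _ (hvl (n + 1)).ne'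
  have ad3 : H.Adj (u m) (v 0) := by
    have h0 := hvl 0
    rw [← hend] at h0
    exact (hu m).2.2 _ h0.ne'
  let W : IWalk H :=
    { w := fun i => if i % 2 = 0 then v ((i / 2) % m) else u ((i / 2) % m + 1)
      adj := by
        intro i
        rcases Nat.mod_two_eq_zero_or_one i with h | h
        · have h' : (i + 1) % 2 = 1 := by omega
          have h3 : (i + 1) / 2 = i / 2 := by omega
          simp only [h, h', h3]
          simpa using ad1 _
        · have h' : (i + 1) % 2 = 0 := by omega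
          have h3 : (i + 1) / 2 = i / 2 + 1 := by omega
          simp only [h, h', h3]
          have hlt : (i / 2) % m < m := Nat.mod_lt _ (by omega)
          by_cases hc : (i / 2) % m + 1 = m
          · have h4 : (i / 2 + 1) % m = 0 := by
              rw [Nat.add_mod, Nat.mod_eq_of_lt (show 1 < m by omega), hc, Nat.mod_self]
            rw [h4, hc]; simpa using ad3
          · have h4 : (i / 2 + 1) % m = (i / 2) % m + 1 := by
              rw [Nat.add_mod, Nat.mod_eq_of_lt (show 1 < m by omega)]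
              exact Nat.mod_eq_of_lt (by omega)
            rw [h4]; simpa using ad2 _ }
  have hw : ∀ i, W.w i = if i % 2 = 0 then v ((i / 2) % m) else u ((i / 2) % m + 1) :=
    fun _ => rfl
  have hp : ∀ i, W.w (i + 2 * m) = W.w i := by
    intro i
    rw [hw, hw]
    have h1 : (i + 2 * m) % 2 = i % 2 := by omega
    have h2 : (i + 2 * m) / 2 = i / 2 + m := by omega
    rw [h1, h2, Nat.add_mod_right]
  have hwe : ∀ n, n < m → W.w (2 * n) = v n := by
    intro n hn
    rw [hw]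
    have h1 : (2 * n) % 2 = 0 := by omega
    have h2 : (2 * n) / 2 = n := by omega
    rw [h1, h2, Nat.mod_eq_of_lt hn]; simp
  have hwo : ∀ n, n < m → W.w (2 * n + 1) = u (n + 1) := by
    intro n hn
    rw [hw]
    have h1 : (2 * n + 1) % 2 = 1 := by omega
    have h2 : (2 * n + 1) / 2 = n := by omega
    rw [h1, h2, Nat.mod_eq_of_lt hn]; simp
  have hnull := null_of_conn (by omega) hconn' W hp
  have hcell : ∀ n, n < m → (γ (t (n + 1)) : V → ℝ) ∈ cell H (W.w (2 * n + 1)) := by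
    intro n hn; rw [hwo n hn]; exact hu (n + 1)
  have cu : W.w (2 * k + 1) = u m := hwo k (by omega)
  have y1 : (γ (t m) : V → ℝ) ∈ cell H (W.w (2 * k + 1)) := by rw [cu]; exact hu m
  have y0 : (γ (t 0) : V → ℝ) ∈ cell H (W.w (2 * k + 1)) := by rw [← hend]; exact y1
  have p0 : (W.pt 0 : V → ℝ) ∈ cell H (W.w (2 * k + 1)) := by
    apply IWalk.pt_cell
    rw [cu, hwe 0 (by omega)]; exact ad3
  have pk : (W.pt k : V → ℝ) ∈ cell H (W.w (2 * k + 1)) := W.c1 k
  have pm : (W.pt m : V → ℝ) ∈ cell H (W.w (2 * k + 1)) := W.c2 k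
  have sA : Sx (γ (t 0)) (W.pt 0) := ⟨_, y0, p0⟩
  have sB : Sx (W.pt k) (γ (t (k + 1))) := ⟨_, pk, y1⟩
  have s0k : Sx (W.pt 0) (W.pt k) := ⟨_, p0, pk⟩
  have s0m : Sx (W.pt 0) (W.pt m) := ⟨_, p0, pm⟩
  have smk : Sx (W.pt m) (W.pt k) := ⟨_, pm, pk⟩
  have skk : Sx (W.pt k) (W.pt k) := ⟨_, pk, pk⟩
  have s0y : Sx (W.pt 0) (γ (t (k + 1))) := ⟨_, p0, y1⟩
  have syy : Sx (γ (t 0)) (γ (t (k + 1))) := ⟨_, y0, y1⟩
  have hPm := hnull s0m
  have hPk : W.P k = cls _ _ s0k := by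
    have e : (W.P m).trans (cls _ _ smk) = W.P k := by
      change ((W.P k).trans (cls _ _ (W.sx k))).trans (cls _ _ smk) = W.P k
      rw [Path.Homotopic.Quotient.trans_assoc, cls_trans pk pm pk _ _ skk, cls_self pk]
      simp
    rw [← e, hPm, cls_trans p0 pm pk _ _ s0k]
  have main := class_partial γ t htm W m
    (fun n hn s hs => by rw [hwe n hn]; exact hpos n s hs) _ y0 hcell k (by omega) sA sB
  rw [hPk, cls_trans p0 pk y1 _ _ s0y, cls_trans y0 p0 y1 _ _ syy] at main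
  exact loop_null_aux γ (t 0) (t (k + 1)) ht0 htm1 syy main

end Pool.Agent.W117.Mob
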