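import Pool.Agent.W117.Mob.C

namespace Pool.Agent.W117.Mob

open Set unitInterval

variable {V : Type} [Fintype V] {H : SimpleGraph V}

open scoped Classical in
/-- push forward of a weight function along a map -/
noncomputable def push {W : Type} [Fintype W] (a : W → V) (x : W → ℝ) : V → ℝ :=
  fun v => ∑ w, if a w = v then x w else 0

lemma push_cont {W : Type} [Fintype W] (a : W → V) : Continuous (push a) := by
  classical
  refine continuous_pi (fun v => ?_)
  unfold push
  refine continuous_finset_sum _ (fun w _ => ?_)
  split_ifs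
  · exact continuous_apply w
  · exact continuous_const

lemma push_cell {W : Type} [Fintype W] (a : W → V) (x : W → ℝ) (h0 : ∀ w, 0 ≤ x w)
    (h1 : ∑ w, x w = 1) (b : V) (hb : ∀ w, x w ≠ 0 → H.Adj b (a w)) : push a x ∈ cell H b := by
  classical
  refine ⟨fun v => ?_, ?_, fun v hv => ?_⟩
  · unfold push
    refine Finset.sum_nonneg (fun w _ => ?_)
    split_ifs
    · exact h0 w
    · exact le_refl _
  · unfold push
    rw [Finset.sum_comm]
    simp [h1]
  · unfold push at hv
    obtain ⟨w, -, hw⟩ := Finset.exists_ne_zero_of_sum_ne_zero hv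
    split_ifs at hw with hc
    · rw [← hc]; exact hb w hw
    · exact absurd rfl hw

/-- the points of the neighbourhood complex of `F` supported on one side of a bipartition `c` -/
def side {W : Type} [Fintype W] (F : SimpleGraph W) (c : W → Bool) : Set (W → ℝ) :=
  {x | (∀ w, 0 ≤ x w) ∧ ∑ w, x w = 1 ∧ (∀ w, x w ≠ 0 → c w = false) ∧
    ∃ u, ∀ w, x w ≠ 0 → F.Adj u w}

/-- the map of neighbourhood complexes induced by a homomorphism -/
noncomputable def induced {W : Type} [Fintype W] {F : SimpleGraph W} (c : W → Bool)
    (f : F →g H) : C(side F c, nbhd H) where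
  toFun x := ⟨push f x.1, by
    obtain ⟨h0, h1, -, u, hu⟩ := x.2
    exact cell_sub (f u) (push_cell f x.1 h0 h1 _ (fun w hw => f.map_adj (hu w hw)))⟩
  continuous_toFun := by
    apply Continuous.subtype_mk
    exact (push_cont f).comp continuous_subtype_val

lemma homotopic_of_close {X : Type} [TopologicalSpace X] (f g : C(X, nbhd H))
    (h : ∀ x, ∃ b, (f x : V → ℝ) ∈ cell H b ∧ (g x : V → ℝ) ∈ cell H b) :
    f.Homotopic g := by
  have hmem : ∀ (t : I) (x : X), (1 - (t : ℝ)) • (f x : V → ℝ) + (t : ℝ) • (g x : V → ℝ) ∈
      nbhd H := by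
    intro t x
    obtain ⟨b, h1, h2⟩ := h x
    exact cell_sub b (cell_convex b h1 h2 (by have := t.2.2; linarith) t.2.1 (by ring))
  refine ⟨{ toFun := fun p => ⟨(1 - (p.1 : ℝ)) • (f p.2 : V → ℝ) + (p.1 : ℝ) • (g p.2 : V → ℝ),
              hmem p.1 p.2⟩
            continuous_toFun := ?_
            map_zero_left := ?_
            map_one_left := ?_ }⟩
  · apply Continuous.subtype_mk
    have hf : Continuous fun p : I × X => (f p.2 : V → ℝ) :=
      continuous_subtype_val.comp (f.continuous.comp continuous_snd)
    have hg : Continuous fun p : I × X => (g p.2 : V → ℝ) :=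
      continuous_subtype_val.comp (g.continuous.comp continuous_snd)
    have ht : Continuous fun p : I × X => (p.1 : ℝ) := continuous_subtype_val.comp continuous_fst
    exact ((continuous_const.sub ht).smul hf).add (ht.smul hg)
  · intro x; ext; simp
  · intro x; ext; simp

/-- induced maps are null-homotopic when the homomorphism graph is connected -/
theorem induced_null {W : Type} [Fintype W] {F : SimpleGraph W} (c : W → Bool)
    (hc : ∀ u v, F.Adj u v → c u ≠ c v) (hconn : HomConnected F H) (hH : H ≠ ⊥)
    (f : F →g H) : (induced c f).Nullhomotopic := by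
  classical
  obtain ⟨a, b, hab⟩ := SimpleGraph.ne_bot_iff_exists_adj.1 hH
  let f0 : F →g H :=
    { toFun := fun w => if c w = false then b else a
      map_rel' := by
        intro u v huv
        have := hc u v huv
        cases hu : c u <;> cases hv : c v <;> simp_all [hab.symm] }
  have hstep : ∀ f g : F →g H, DiffOne f g → (induced c f).Homotopic (induced c g) := by
    intro f g hfg
    apply homotopic_of_close
    intro x
    obtain ⟨h0, h1, -, u, hu⟩ := x.2
    exact ⟨f u, push_cell f x.1 h0 h1 _ (fun w hw => f.map_adj (hu w hw)),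
      push_cell g x.1 h0 h1 _ (fun w hw => hom_close f g hfg (hu w hw))⟩
  have hall : ∀ f g : F →g H, (induced c f).Homotopic (induced c g) := by
    intro f g
    induction hconn f g with
    | refl => exact ContinuousMap.Homotopic.refl _
    | tail _ hab ih => exact ih.trans (hstep _ _ hab)
  refine ⟨⟨pv b, cell_sub a (pv_cell hab)⟩, (hall f f0).trans ?_⟩
  apply homotopic_of_close
  intro x
  obtain ⟨h0, h1, h2, u, hu⟩ := x.2
  refine ⟨a, push_cell f0 x.1 h0 h1 _ (fun w hw => ?_), pv_cell hab⟩
  have : f0 w = b := by
    change (if c w = false then b else a) = b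
    rw [if_pos (h2 w hw)]
  rw [this]; exact hab

/-- boundary of the `n`-simplex -/
def bdry (n : ℕ) : Set (Fin (n + 1) → ℝ) :=
  {x | (∀ i, 0 ≤ x i) ∧ ∑ i, x i = 1 ∧ ∃ j, x j = 0}

/-- vertices all of whose proper subsets are simplices of the neighbourhood complex -/
def Hollow (H : SimpleGraph V) {n : ℕ} (a : Fin (n + 1) → V) : Prop :=
  ∀ j, ∃ b, ∀ i, i ≠ j → H.Adj b (a i)

/-- the (simplicial) map of the boundary of the simplex given by a hollow tuple -/
noncomputable def hollowMap {n : ℕ} (a : Fin (n + 1) → V) (ha : Hollow H a) :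
    C(bdry n, nbhd H) where
  toFun x := ⟨push a x.1, by
    obtain ⟨h0, h1, j, hj⟩ := x.2
    obtain ⟨b, hb⟩ := ha j
    refine cell_sub b (push_cell a x.1 h0 h1 _ (fun i hi => hb i ?_))
    rintro rfl; exact hi hj⟩
  continuous_toFun := by
    apply Continuous.subtype_mk
    exact (push_cont a).comp continuous_subtype_val

/-- the crown graph: `K_{n+1,n+1}` minus a perfect matching -/
def crown (n : ℕ) : SimpleGraph (Fin (n + 1) × Bool) where
  Adj p q := p.1 ≠ q.1 ∧ p.2 ≠ q.2
  symm := ⟨fun _ _ h => ⟨h.1.symm, h.2.symm⟩⟩
  loopless := ⟨fun _ h => h.1 rfl⟩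

lemma crown_deg (n : ℕ) (v : Fin (n + 1) × Bool) : ((crown n).neighborSet v).ncard ≤ n := by
  classical
  have hsub : (crown n).neighborSet v ⊆
      ((Finset.univ.erase v.1).image (fun i => (i, !v.2)) : Finset (Fin (n + 1) × Bool)) := by
    intro w hw
    rw [SimpleGraph.mem_neighborSet] at hw
    obtain ⟨h1, h2⟩ := hw
    rw [Finset.mem_coe, Finset.mem_image]
    refine ⟨w.1, Finset.mem_erase.2 ⟨h1.symm, Finset.mem_univ _⟩, ?_⟩
    ext
    · rfl
    · cases hv : v.2 <;> cases hw : w.2 <;> simp_all
  calc ((crown n).neighborSet v).ncard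
      ≤ (((Finset.univ.erase v.1).image (fun i => (i, !v.2)) :
        Finset (Fin (n + 1) × Bool)) : Set (Fin (n + 1) × Bool)).ncard :=
          Set.ncard_le_ncard hsub (Finset.finite_toSet _)
    _ ≤ n := by
        rw [Set.ncard_coe_finset]
        refine Finset.card_image_le.trans ?_
        rw [Finset.card_erase_of_mem (Finset.mem_univ _), Finset.card_univ, Fintype.card_fin]
        simp

theorem hollow_null {n : ℕ} (hconn : HomConnected (crown n) H) (hH : H ≠ ⊥)
    (a : Fin (n + 1) → V) (ha : Hollow H a) : (hollowMap a ha).Nullhomotopic := by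
  classical
  choose b hb using id ha
  let f : crown n →g H :=
    { toFun := fun p => if p.2 = false then a p.1 else b p.1
      map_rel' := by
        intro p q hpq
        obtain ⟨h1, h2⟩ := hpq
        cases hp : p.2 <;> cases hq : q.2
        · exact absurd (hp.trans hq.symm) h2
        · simpa [hp, hq] using (hb q.1 p.1 h1).symm
        · simpa [hp, hq] using hb p.1 q.1 h1.symm
        · exact absurd (hp.trans hq.symm) h2 }
  have hf := induced_null (fun p : Fin (n + 1) × Bool => p.2) (fun u v (h : (crown n).Adj u v) => h.2) hconn hH f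
  -- embedding of the boundary
  have hemb : ∀ x : bdry n, (fun p : Fin (n + 1) × Bool => if p.2 = false then x.1 p.1 else 0) ∈
      side (crown n) (fun p => p.2) := by
    intro x
    obtain ⟨h0, h1, j, hj⟩ := x.2
    refine ⟨fun p => ?_, ?_, fun p hp => ?_, (j, true), fun p hp => ?_⟩
    · dsimp only; split_ifs
      · exact h0 _
      · exact le_refl _
    · rw [Fintype.sum_prod_type]; simpa using h1
    · by_contra hc; apply hp; dsimp only; rw [if_neg hc]
    · have h2 : p.2 = false := by by_contra hc; apply hp; dsimp only; rw [if_neg hc]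
      refine ⟨?_, by simp [h2]⟩
      rintro rfl
      apply hp
      dsimp only
      rw [if_pos h2]; exact hj
  let e : C(bdry n, side (crown n) (fun p : Fin (n + 1) × Bool => p.2)) :=
    { toFun := fun x => ⟨_, hemb x⟩
      continuous_toFun := by
        apply Continuous.subtype_mk
        refine continuous_pi (fun p => ?_)
        split_ifs
        · exact (continuous_apply _).comp continuous_subtype_val
        · exact continuous_const }
  have heq : hollowMap a ha =
      (induced (fun p : Fin (n + 1) × Bool => p.2) f).comp e := by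
    ext x v
    change push a x.1 v = push f (fun p => if p.2 = false then x.1 p.1 else 0) v
    unfold push
    rw [Fintype.sum_prod_type]
    refine Finset.sum_congr rfl (fun i _ => ?_)
    simp [f]
  rw [heq]
  exact hf.comp_left e

end Pool.Agent.W117.Mob
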